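import Pool.Agent.W633.LT.Stm2

set_option autoImplicit false

namespace Pool.Agent.W473.LG
open W633.LT

theorem per (S : Subdiv) (k : ℤ) : ∀ q : ℚ, q ∈ S.pts ↔ q + 2 * k ∈ S.pts := by
  induction k with
  | zero => intro q; simp
  | succ k ih =>
    intro q
    rw [ih q, S.periodic (q + 2 * ((k : ℤ) : ℚ))]
    have e : q + 2 * ((k : ℤ) : ℚ) + 2 = q + 2 * ((((k : ℤ) + 1 : ℤ)) : ℚ) := by push_cast; ring
    rw [e]
  | pred k ih =>
    intro q
    rw [ih q, S.periodic (q + 2 * (((-(k : ℤ) - 1 : ℤ)) : ℚ))]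
    have e : q + 2 * (((-(k : ℤ) - 1 : ℤ)) : ℚ) + 2 = q + 2 * ((-(k : ℤ) : ℤ) : ℚ) := by
      push_cast; ring
    rw [e]

theorem fin_blk (S : Subdiv) (k : ℤ) :
    (S.pts ∩ Set.Icc (2 * (k : ℚ)) (2 * k + 2)).Finite := by
  refine (S.finite.image (fun q : ℚ => q + 2 * k)).subset ?_
  rintro q ⟨hq, h1, h2⟩
  refine ⟨q - 2 * k, ⟨?_, ?_, ?_⟩, by simp⟩
  · rw [per S k]
    simpa using hq
  · linarith
  · linarith

theorem fin_all (S : Subdiv) (a b : ℚ) : (S.pts ∩ Set.Icc a b).Finite := by
  have h : (⋃ k ∈ (Finset.Icc ⌊a / 2⌋ ⌊b / 2⌋ : Finset ℤ),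
      (S.pts ∩ Set.Icc (2 * (k : ℚ)) (2 * k + 2))).Finite :=
    Set.Finite.biUnion (Finset.finite_toSet _) fun k _ => fin_blk S k
  refine h.subset ?_
  rintro q ⟨hq, h1, h2⟩
  simp only [Set.mem_iUnion, exists_prop]
  refine ⟨⌊q / 2⌋, ?_, hq, ?_, ?_⟩
  · rw [Finset.mem_Icc]
    exact ⟨Int.floor_le_floor (by linarith), Int.floor_le_floor (by linarith)⟩
  · have := Int.floor_le (q / 2)
    linarith
  · have := Int.lt_floor_add_one (q / 2)
    linarith

theorem comb : Comb := by
  constructor
  · intro S v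
    classical
    have hfl := fin_all S (v - 1) v
    have hfr := fin_all S v (v + 1)
    let A : Finset ℚ := insert (v - 1) (hfl.toFinset.filter (· < v))
    let B : Finset ℚ := insert (v + 1) (hfr.toFinset.filter (v < ·))
    have hA : A.Nonempty := ⟨v - 1, Finset.mem_insert_self _ _⟩
    have hB : B.Nonempty := ⟨v + 1, Finset.mem_insert_self _ _⟩
    refine ⟨A.max' hA, B.min' hB, ?_, ?_, ?_, ?_⟩
    · have h := A.max'_mem hA
      rcases Finset.mem_insert.1 h with h | h
      · rw [h]; linarith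
      · exact (Finset.mem_filter.1 h).2
    · have h := B.min'_mem hB
      rcases Finset.mem_insert.1 h with h | h
      · rw [h]; linarith
      · exact (Finset.mem_filter.1 h).2
    · rintro q hq ⟨h1, h2⟩
      have h3 : v - 1 ≤ A.max' hA := A.le_max' _ (Finset.mem_insert_self _ _)
      have h4 : q ∈ A := by
        refine Finset.mem_insert_of_mem (Finset.mem_filter.2 ⟨?_, h2⟩)
        rw [Set.Finite.mem_toFinset]
        exact ⟨hq, by linarith, h2.le⟩
      exact absurd (A.le_max' _ h4) (not_le.2 h1)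
    · rintro q hq ⟨h1, h2⟩
      have h3 : B.min' hB ≤ v + 1 := B.min'_le _ (Finset.mem_insert_self _ _)
      have h4 : q ∈ B := by
        refine Finset.mem_insert_of_mem (Finset.mem_filter.2 ⟨?_, h1⟩)
        rw [Set.Finite.mem_toFinset]
        exact ⟨hq, h1.le, by linarith⟩
      exact absurd (B.min'_le _ h4) (not_le.2 h2)
  · intro S D hD
    have key : ∀ n : ℕ, ∀ u w : ℚ, u < w → (S.pts ∩ Set.Ioo u w).ncard = n → D u = D w := by
      intro n
      induction n using Nat.strong_induction_on with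
      | _ n ih =>
        intro u w huw hn
        by_cases hne : ∃ p ∈ S.pts, u < p ∧ p < w
        · obtain ⟨p, hp, h1, h2⟩ := hne
          have hfin : (S.pts ∩ Set.Ioo u w).Finite :=
            (fin_all S u w).subset (Set.inter_subset_inter_right _ Set.Ioo_subset_Icc_self)
          have e1 : (S.pts ∩ Set.Ioo u p).ncard < n := by
            rw [← hn]
            refine Set.ncard_lt_ncard ⟨?_, ?_⟩ hfin
            · rintro q ⟨a1, a2, a3⟩
              exact ⟨a1, a2, a3.trans h2⟩
            · intro hsub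
              have := hsub ⟨hp, h1, h2⟩
              exact lt_irrefl _ this.2.2
          have e2 : (S.pts ∩ Set.Ioo p w).ncard < n := by
            rw [← hn]
            refine Set.ncard_lt_ncard ⟨?_, ?_⟩ hfin
            · rintro q ⟨a1, a2, a3⟩
              exact ⟨a1, h1.trans a2, a3⟩
            · intro hsub
              have := hsub ⟨hp, h1, h2⟩
              exact lt_irrefl _ this.2.1
          exact (ih _ e1 u p h1 rfl).trans (ih _ e2 p w h2 rfl)
        · push Not at hne
          refine hD u w huw ?_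
          rintro q hq ⟨h1, h2⟩
          exact absurd h2 (not_lt.2 (hne q hq h1))
    intro v
    exact key _ v (v + 2) (by linarith) rfl

end Pool.Agent.W473.LG
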